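import Pool.Agent.H21.Eqs4

namespace Pool.Agent.Results.MP_117856_lc.CoNPHard

open Pool.Agent.H11.PT Pool.Agent.H21.EqsDefs

theorem result (L : List Bool → Prop) (hL : InNP L) :
    ∃ f : List Bool → List (ℕ × ℕ × ℕ) × List ((ℕ × ℕ × ℕ) × ℕ × ℕ × ℕ),
      PolyTime id bits f ∧
      ∀ x, Simple (f x).1 (f x).2 ∧ (L x ↔ ¬Equistable (f x).1 (f x).2) := by
  obtain ⟨g, hg, e⟩ := hard_SAT3 L hL
  exact ⟨fun x => H21.Eqs.red (g x), (H21.Eqs.red_pt.comp hg).polyTime_raw,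
    fun x => ⟨H21.Eqs.simple, (e x).trans H21.Eqs.correct⟩⟩

end Pool.Agent.Results.MP_117856_lc.CoNPHard
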